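import Pool.Agent.Lib.MP_8a3537_gt.GA.W2

/-!
# The Arf invariant over a commutative ring of characteristic two by the coefficients of
# the characteristic polynomial
-/

namespace Pool.Agent.Lib.MP8a3537.GA

open Matrix W2

set_option linter.unusedSectionVars false

variable {K : Type*} [CommRing K]
variable {κ μ : Type*} [Fintype κ] [DecidableEq κ] [Fintype μ] [DecidableEq μ]

lemma c2_fromBlocks (A : Matrix κ κ K) (B : Matrix κ μ K) (C : Matrix μ κ K) (D : Matrix μ μ K) :
    c2 (Matrix.fromBlocks A B C D) = c2 A + c2 D + (A.trace * D.trace - (B * C).trace) := by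
  let e : κ ⊕ μ → ℕ := Sum.elim (ord κ) (fun j => Fintype.card κ + ord μ j)
  have hlt : ∀ i : κ, ord κ i < Fintype.card κ := fun i => (Fintype.equivFin κ i).2
  have he : Function.Injective e := by
    rintro (i | i) (j | j) h
    · exact congrArg _ (ord_inj κ h)
    · have h' : ord κ i = Fintype.card κ + ord μ j := h
      have := hlt i
      omega
    · have h' : Fintype.card κ + ord μ i = ord κ j := h
      have := hlt j
      omega
    · have h' : Fintype.card κ + ord μ i = Fintype.card κ + ord μ j := h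
      exact congrArg _ (ord_inj μ (Nat.add_left_cancel h'))
  rw [c2_eq he]
  simp only [Fintype.sum_sum_type, e, Sum.elim_inl, Sum.elim_inr, Matrix.fromBlocks_apply₁₁,
    Matrix.fromBlocks_apply₁₂, Matrix.fromBlocks_apply₂₁, Matrix.fromBlocks_apply₂₂]
  have h1 : ∀ (i : κ) (j : μ), (ord κ i < Fintype.card κ + ord μ j) := by
    intro i j; have := hlt i; omega
  have h2 : ∀ (i : κ) (j : μ), ¬ (Fintype.card κ + ord μ j < ord κ i) := by
    intro i j; have := hlt i; omega
  simp only [h1, h2, if_true, if_false, Finset.sum_const_zero, zero_add, add_lt_add_iff_left]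
  rw [Finset.sum_add_distrib]
  have h3 : A.trace * D.trace - (B * C).trace
      = ∑ i, ∑ j, (A i i * D j j - B i j * C j i) := by
    simp only [Matrix.trace, Matrix.diag_apply, Finset.sum_mul_sum, Matrix.mul_apply,
      Finset.sum_sub_distrib]
  have h4 : (∑ i, ∑ j, if ord κ i < ord κ j then A i i * A j j - A i j * A j i else 0) = c2 A :=
    rfl
  have h5 : (∑ i, ∑ j, if ord μ i < ord μ j then D i i * D j j - D i j * D j i else 0) = c2 D :=
    rfl
  rw [h3, ← h4, ← h5]
  exact add_right_comm _ _ _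

variable [CharP K 2]

lemma T2_fromBlocks (A : Matrix κ κ K) (B : Matrix κ μ K) (C : Matrix μ κ K) (D : Matrix μ μ K) :
    T2 (Matrix.fromBlocks A B C D) = T2 A + T2 D + V ((B * C).trace) := by
  ext
  · rw [add_fst, V_fst, add_zero, add_fst, T2_fst, T2_fst, T2_fst]
    simp [Matrix.trace, Fintype.sum_sum_type]
  · simp only [T2_snd, add_snd, T2_fst, V_snd, V_fst, c2_fromBlocks, add_fst]
    rw [CharTwo.sub_eq_add]; ring

lemma trace_mul_symm {a d : Matrix κ κ K} (ha : aᵀ = a) (hd : dᵀ = d) :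
    (d * a).trace = ∑ i, a i i * d i i := by
  have h := sum_pairs Finset.univ (ord_inj κ) (fun i j => d i j * a j i)
  have h1 : (∑ i, ∑ j, if ord κ i < ord κ j then d i j * a j i + d j i * a i j else 0) = 0 := by
    refine Finset.sum_eq_zero (fun i _ => Finset.sum_eq_zero (fun j _ => ?_))
    have e1 : d j i = d i j := congrFun (congrFun hd i) j
    have e2 : a i j = a j i := congrFun (congrFun ha j) i
    rw [e1, e2, CharTwo.add_self_eq_zero, ite_self]
  rw [h1, zero_add] at h
  simp only [Matrix.trace, Matrix.diag_apply, Matrix.mul_apply]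
  rw [← h]
  exact Finset.sum_congr rfl (fun i _ => mul_comm _ _)

/-- The hyperbolic form. -/
def hyp (μ K : Type*) [Fintype μ] [DecidableEq μ] [CommRing K] : Matrix (μ ⊕ μ) (μ ⊕ μ) K :=
  Matrix.fromBlocks 0 1 1 0

lemma hyp_mul_hyp : hyp μ K * hyp μ K = 1 := by
  unfold hyp
  rw [Matrix.fromBlocks_multiply]
  simp [Matrix.fromBlocks_one]

theorem arf_normal (N : Matrix (μ ⊕ μ) (μ ⊕ μ) K) (hN : N + Nᵀ = hyp μ K) :
    ∃ z : K, T2 (hyp μ K * N) = T2 (1 : Matrix μ μ K)
      + V ((∑ i, N (Sum.inl i) (Sum.inl i) * N (Sum.inr i) (Sum.inr i)) + (z * z + z)) := by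
  obtain ⟨a, b, c, d, rfl⟩ : ∃ a b c d, N = Matrix.fromBlocks a b c d :=
    ⟨_, _, _, _, (Matrix.fromBlocks_toBlocks N).symm⟩
  unfold hyp at hN ⊢
  rw [Matrix.fromBlocks_transpose, Matrix.fromBlocks_add, Matrix.fromBlocks_inj] at hN
  obtain ⟨h1, h2, -, h4⟩ := hN
  have ha : aᵀ = a := by
    ext i j
    have := congrFun (congrFun h1 i) j
    simp only [Matrix.add_apply, Matrix.zero_apply] at this
    exact (CharTwo.add_eq_zero.mp this).symm
  have hd : dᵀ = d := by
    ext i j
    have := congrFun (congrFun h4 i) j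
    simp only [Matrix.add_apply, Matrix.zero_apply] at this
    exact (CharTwo.add_eq_zero.mp this).symm
  have hb : b = 1 + cᵀ := by
    ext i j
    have := congrFun (congrFun h2 i) j
    simp only [Matrix.add_apply] at this
    rw [Matrix.add_apply, ← this, add_assoc, CharTwo.add_self_eq_zero, add_zero]
  refine ⟨c.trace, ?_⟩
  rw [Matrix.fromBlocks_multiply]
  simp only [Matrix.zero_mul, Matrix.one_mul, zero_add, add_zero]
  rw [T2_fromBlocks, hb, T2_add, T2_transpose, Matrix.one_mul, Matrix.trace_transpose,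
    trace_mul_symm ha hd]
  simp only [Matrix.fromBlocks_apply₁₁, Matrix.fromBlocks_apply₂₂, map_add]
  have h5 := W2.add_self (T2 c)
  rw [T2_fst] at h5
  rw [← h5]
  abel

theorem arf_formula (M L : Matrix κ κ K) (hL : L * (M + Mᵀ) = 1) (P : Matrix κ (μ ⊕ μ) K)
    (hcard : Fintype.card (μ ⊕ μ) = Fintype.card κ) (hP : Pᵀ * (M + Mᵀ) * P = hyp μ K) :
    ∃ z : K, T2 (L * M) = T2 (1 : Matrix μ μ K)
      + V ((∑ i, (Pᵀ * M * P) (Sum.inl i) (Sum.inl i) * (Pᵀ * M * P) (Sum.inr i) (Sum.inr i))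
        + (z * z + z)) := by
  have hL' : (M + Mᵀ) * L = 1 := mul_eq_one_comm.mp hL
  set Q : Matrix (μ ⊕ μ) κ K := hyp μ K * Pᵀ * (M + Mᵀ) with hQ
  have hQP : Q * P = 1 := by
    rw [hQ, Matrix.mul_assoc, Matrix.mul_assoc, ← Matrix.mul_assoc Pᵀ, hP, hyp_mul_hyp]
  have hPQ : P * Q = 1 := (Matrix.mul_eq_one_comm_of_card_eq (μ ⊕ μ) κ K hcard).mp hQP
  have hN : Pᵀ * M * P + (Pᵀ * M * P)ᵀ = hyp μ K := by
    rw [← hP]
    simp only [Matrix.transpose_mul, Matrix.transpose_transpose, Matrix.mul_add, Matrix.add_mul,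
      Matrix.mul_assoc]
  obtain ⟨z, hz⟩ := arf_normal (Pᵀ * M * P) hN
  refine ⟨z, ?_⟩
  rw [← hz]
  have e1 : L * M = (L * M * P) * Q := by
    rw [Matrix.mul_assoc (L * M), hPQ, Matrix.mul_one]
  have e2 : Q * (L * M * P) = hyp μ K * (Pᵀ * M * P) := by
    rw [hQ]
    calc hyp μ K * Pᵀ * (M + Mᵀ) * (L * M * P)
        = hyp μ K * Pᵀ * (((M + Mᵀ) * L) * (M * P)) := by simp only [Matrix.mul_assoc]
      _ = _ := by rw [hL', Matrix.one_mul]; simp only [Matrix.mul_assoc]
  rw [e1, T2_mul_comm, e2]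

end Pool.Agent.Lib.MP8a3537.GA
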