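import Mathlib

/-!
# Arf invariants of quadratic forms over `R[E]`: definitions

`R` is a ring with involution, `E` a group, `K` a commutative ring of characteristic two.
An `ε`-quadratic form on `R[E]^n` is given by a matrix `ψ ∈ M_n(R[E])`; it is nonsingular when
`ψ + ε ψ^*` is invertible.
-/

namespace Pool.Agent.Lib.MP8a3537.GA

open Matrix MonoidAlgebra

/-- The involution `∑ r_g g ↦ ∑ r_g^* g⁻¹` of `R[E]`. -/
noncomputable def conj {R E : Type*} [Ring R] [StarRing R] [Group E] (x : MonoidAlgebra R E) :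
    MonoidAlgebra R E :=
  x.coeff.sum fun g r => MonoidAlgebra.single g⁻¹ (star r)

/-- The conjugate transpose of a matrix over `R[E]`. -/
noncomputable def dual {R E ι : Type*} [Ring R] [StarRing R] [Group E]
    (ψ : Matrix ι ι (MonoidAlgebra R E)) : Matrix ι ι (MonoidAlgebra R E) :=
  (ψ.map conj)ᵀ

/-- `*`-representations of `R[E]` on `K^d` with a symmetric nonsingular bilinear form `b`: the
adjoint of `Φ(r g)` is `Φ(r^* g⁻¹)`. -/
structure Rep (R E K : Type*) (d : ℕ) [Ring R] [StarRing R] [Group E] [CommRing K] where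
  /-- the representation -/
  hom : MonoidAlgebra R E →+* Matrix (Fin d) (Fin d) K
  /-- the matrix of the bilinear form -/
  b : Matrix (Fin d) (Fin d) K
  symm : bᵀ = b
  unit : IsUnit b
  star_hom : ∀ g r, (hom (MonoidAlgebra.single g r))ᵀ * b
    = b * hom (MonoidAlgebra.single g⁻¹ (star r))

/-- The matrix `(b Φ(ψ_ij))` over `K`, of size `n d`, of the quadratic form obtained from `ψ` and
the representation `Φ`. -/
noncomputable def Rep.form {R E K ι : Type*} [Ring R] [StarRing R] [Group E] [CommRing K] {d : ℕ}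
    (Φ : Rep R E K d) (ψ : Matrix ι ι (MonoidAlgebra R E)) :
    Matrix (ι × Fin d) (ι × Fin d) K :=
  Matrix.of fun p q => (Φ.b * Φ.hom (ψ p.1 q.1)) p.2 q.2

/-- The second coefficient of the characteristic polynomial: the sum of the principal minors of
size two. -/
def minors {K : Type*} [CommRing K] {d : ℕ} (Y : Matrix (Fin d) (Fin d) K) : K :=
  ∑ i, ∑ j, if i < j then Y i i * Y j j - Y i j * Y j i else 0

open Classical in
/-- The trace at the subgroup `H`: the sum of the traces of `Φ(r g)` over all terms `r g` with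
`g ∈ H` of the diagonal entries of `x`. -/
noncomputable def Rep.trace {R E K ι : Type*} [Ring R] [StarRing R] [Group E] [CommRing K] {d : ℕ}
    [Fintype ι] (Φ : Rep R E K d) (H : Subgroup E) (x : Matrix ι ι (MonoidAlgebra R E)) : K :=
  ∑ i, (x i i).coeff.sum fun g r =>
    if g ∈ H then (Φ.hom (MonoidAlgebra.single g r)).trace else 0

/-- `T` is a second trace at `H`: it satisfies the addition rule of second coefficients of
characteristic polynomials, and its value at the matrix with the only entry `r g`, in the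
place `(i, j)`, is the second coefficient for `Φ(r g)` if `i = j` and `g ∈ H`, else zero. -/
structure Rep.IsSecondTrace {R E K ι : Type*} [Ring R] [StarRing R] [Group E] [CommRing K] {d : ℕ}
    [Fintype ι] [DecidableEq ι] (Φ : Rep R E K d) (H : Subgroup E)
    (T : Matrix ι ι (MonoidAlgebra R E) → K) : Prop where
  add : ∀ x y, T (x + y) = T x + T y + (Φ.trace H x * Φ.trace H y - Φ.trace H (x * y))
  single_mem : ∀ i, ∀ g ∈ H, ∀ r, T (Matrix.single i i (MonoidAlgebra.single g r))
    = minors (Φ.hom (MonoidAlgebra.single g r))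
  single_ne : ∀ i j g r, (i ≠ j ∨ g ∉ H) → T (Matrix.single i j (MonoidAlgebra.single g r)) = 0

/-- `e, f` is a symplectic basis, with `2 m` elements, of the bilinear form `M + Mᵀ`. -/
structure IsSymplectic {K κ : Type*} [CommRing K] [Fintype κ] {m : ℕ} (M : Matrix κ κ K)
    (e f : Fin m → κ → K) : Prop where
  card : Fintype.card κ = 2 * m
  ee : ∀ i j, e i ⬝ᵥ ((M + Mᵀ) *ᵥ e j) = 0
  ff : ∀ i j, f i ⬝ᵥ ((M + Mᵀ) *ᵥ f j) = 0
  ef : ∀ i j, e i ⬝ᵥ ((M + Mᵀ) *ᵥ f j) = if i = j then 1 else 0

/-- The sum `∑ q(e_i) q(f_i)` for the quadratic form `q(v) = vᵀ M v`; its class modulo the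
elements `z ^ 2 + z` is the Arf invariant. -/
def arf {K κ : Type*} [CommRing K] [Fintype κ] {m : ℕ} (M : Matrix κ κ K)
    (e f : Fin m → κ → K) : K :=
  ∑ i, (e i ⬝ᵥ (M *ᵥ e i)) * (f i ⬝ᵥ (M *ᵥ f i))

end Pool.Agent.Lib.MP8a3537.GA
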