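import Pool.Agent.Lib.MP_8a3537_gt.GA.Loc

/-!
# The key identity: conjugacy classes outside `H` do not contribute
-/

namespace Pool.Agent.Lib.MP8a3537.GA

open Matrix MonoidAlgebra W2

set_option linter.unusedSectionVars false

variable {K : Type*} [CommRing K] {E : Type*} [Group E]
variable {κ : Type*} [Fintype κ] [DecidableEq κ]

/-- The sum of the coefficients. -/
noncomputable def aug : MonoidAlgebra (Matrix κ κ K) E →+* Matrix κ κ K :=
  MonoidAlgebra.liftNCRingHom (RingHom.id _) (1 : E →* Matrix κ κ K)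
    (fun _ _ => Commute.one_right _)

lemma aug_single (g : E) (A : Matrix κ κ K) : aug (MonoidAlgebra.single g A) = A := by
  simp [aug, MonoidAlgebra.liftNCRingHom]

lemma aug_adj (X : MonoidAlgebra (Matrix κ κ K) E) : aug (adj X) = (aug X)ᵀ := by
  induction X using MonoidAlgebra.induction_linear with
  | zero => simp [adj_zero]
  | add X Y hX hY => rw [adj_add, map_add, map_add, hX, hY, Matrix.transpose_add]
  | single g A => rw [adj_single, aug_single, aug_single]

lemma trace_aug (X : MonoidAlgebra (Matrix κ κ K) E) :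
    (aug X).trace = trf (ind Set.univ) X := by
  induction X using MonoidAlgebra.induction_linear with
  | zero => simp
  | add X Y hX hY => rw [map_add, Matrix.trace_add, hX, hY, map_add]
  | single g A =>
    rw [aug_single, trf_single]
    unfold ind
    simp

variable [CharP K 2]

lemma QF_aug : QF (Set.univ : Set E) (fun X : MonoidAlgebra (Matrix κ κ K) E => T2 (aug X)) where
  add X Y := by rw [map_add, T2_add, ← map_mul, trace_aug]
  single g A := by rw [aug_single]; simp

/-- A set of representatives of the pairs of classes outside `H`. -/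
structure IsHalf (H : Subgroup E) (C : Set E) : Prop where
  ci : CI C
  notMem : ∀ g ∈ H, g ∉ C
  or_inv : ∀ g ∉ H, g ∈ C ∨ g⁻¹ ∈ C
  not_and : ∀ g, g ∈ C → g⁻¹ ∉ C

omit [CharP K 2] in
theorem exists_half (H : Subgroup E) [H.Normal] (hE : ∀ g ∉ H, ¬ IsConj g g⁻¹) :
    ∃ C : Set E, IsHalf H C := by
  classical
  let _ : LinearOrder (ConjClasses E) := linearOrderOfSTO WellOrderingRel
  have hc : ∀ g h : E, ConjClasses.mk (g * h) = ConjClasses.mk (h * g) := by
    intro g h
    rw [ConjClasses.mk_eq_mk_iff_isConj, isConj_iff]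
    exact ⟨h, by group⟩
  have hc' : ∀ g h : E, ConjClasses.mk (g * h)⁻¹ = ConjClasses.mk (h * g)⁻¹ := by
    intro g h
    rw [_root_.mul_inv_rev, _root_.mul_inv_rev, hc]
  refine ⟨{g | g ∉ H ∧ ConjClasses.mk g < ConjClasses.mk g⁻¹}, ?_, ?_, ?_, ?_⟩
  · intro g h
    simp only [Set.mem_ofPred_eq]
    rw [hc g h, hc' g h, Subgroup.Normal.mem_comm_iff ‹H.Normal›]
  · intro g hg h
    exact h.1 hg
  · intro g hg
    have hne : ConjClasses.mk g ≠ ConjClasses.mk g⁻¹ := by
      intro e
      exact hE g hg (ConjClasses.mk_eq_mk_iff_isConj.mp e)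
    rcases lt_or_gt_of_ne hne with h | h
    · exact Or.inl ⟨hg, h⟩
    · refine Or.inr ⟨fun h' => hg (by simpa using H.inv_mem h'), ?_⟩
      rw [inv_inv]
      exact h
  · intro g hg hg'
    have h1 := hg.2
    have h2 := hg'.2
    rw [inv_inv] at h2
    exact lt_irrefl _ (h1.trans h2)

omit [CharP K 2] in
lemma IsHalf.union {H : Subgroup E} {C : Set E} (hC : IsHalf H C) :
    (H : Set E) ∪ (C ∪ C⁻¹) = Set.univ := by
  ext g
  simp only [Set.mem_union, Set.mem_univ, iff_true, SetLike.mem_coe, Set.mem_inv]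
  by_cases hg : g ∈ H
  · exact Or.inl hg
  · exact Or.inr (hC.or_inv g hg)

omit [CharP K 2] in
lemma IsHalf.disj {H : Subgroup E} {C : Set E} (hC : IsHalf H C) :
    Disjoint C C⁻¹ := by
  rw [Set.disjoint_left]
  intro g hg hg'
  exact hC.not_and g hg hg'

omit [CharP K 2] in
lemma IsHalf.disj' {H : Subgroup E} {C : Set E} (hC : IsHalf H C) :
    Disjoint (H : Set E) (C ∪ C⁻¹) := by
  rw [Set.disjoint_left]
  rintro g hg (h | h)
  · exact hC.notMem g hg h
  · exact hC.notMem _ (H.inv_mem hg) h

/-- **Key identity.** -/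
theorem key (H : Subgroup E) [H.Normal] (hE : ∀ g ∉ H, ¬ IsConj g g⁻¹)
    (hsq : ∀ g, g * g ∈ H → g ∈ H)
    {TH : MonoidAlgebra (Matrix κ κ K) E → W2 K} (hTH : QF (H : Set E) TH)
    {ψ P : MonoidAlgebra (Matrix κ κ K) E} (h1 : P * (ψ + adj ψ) = 1)
    (_h2 : (ψ + adj ψ) * P = 1) :
    ∃ z : K, T2 (aug (P * ψ)) = TH (P * ψ) + V (z * z + z) := by
  classical
  obtain ⟨C, hC⟩ := exists_half H hE
  obtain ⟨T, hT⟩ := exists_QF (K := K) (κ := κ) hC.ci
  have hTadj := hT.adj hC.ci
  have hdec := (hTH.union (hT.union hTadj hC.disj) hC.disj')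
  rw [hC.union] at hdec
  have hmain := congrFun (QF_aug.unique hdec) (P * ψ)
  beta_reduce at hmain
  set A := ψ + adj ψ with hA
  have hAadj : adj A = A := by rw [hA, adj_add, adj_adj, add_comm]
  have hPadj : adj P = P := by
    have e : A * adj P = 1 := by
      have := congrArg adj h1
      rwa [adj_mul, hAadj, adj_one] at this
    calc adj P = P * A * adj P := by rw [h1, one_mul]
      _ = P := by rw [mul_assoc, e, mul_one]
  set X := P * ψ with hX
  have hneg : ∀ Y : MonoidAlgebra (Matrix κ κ K) E, Y + Y = 0 := by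
    intro Y
    rw [← sub_eq_zero, sub_zero]
    nth_rewrite 2 [← QF.neg Y]
    rw [add_neg_cancel]
  have hψ : adj ψ = A + ψ := by
    rw [hA, add_comm ψ, add_assoc, hneg, add_zero]
  have hXadj : adj X = (A + ψ) * P := by rw [hX, adj_mul, hPadj, hψ]
  have hPψ : P * (A + ψ) = 1 + X := by rw [mul_add, h1]
  have hcomm : T (adj X) = T (1 + X) := by
    rw [hXadj, hT.mul_comm hC.ci, hPψ]
  have h1C : (1 : E) ∉ C := hC.notMem 1 H.one_mem
  have hT1 : T 1 = 0 := by
    rw [MonoidAlgebra.one_def, hT.single, if_neg]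
    rw [one_mul]; exact h1C
  set z := trf (ind C) X with hz
  have hTX : T (adj X) = T X + V z := by
    rw [hcomm, hT.add, one_mul, hT1, zero_add]
  -- the first component
  have hfst := hT.fst X
  set y := trf (ind {g | g * g ∈ C}) X with hy
  have hyz : y = z := by
    set w : E → K := fun g => ind {g | g * g ∈ C} g + ind C g with hw
    have hwH : ∀ g ∈ H, w g = 0 := by
      intro g hg
      have e1 : g * g ∉ C := hC.notMem _ (H.mul_mem hg hg)
      have e2 : g ∉ C := hC.notMem _ hg
      simp only [hw]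
      unfold ind
      rw [if_neg e2, if_neg (by simpa using e1), add_zero]
    have hindC : ∀ g ∉ H, (ind C g : K) + ind C g⁻¹ = 1 := by
      intro g hg
      unfold ind
      rcases hC.or_inv g hg with h | h
      · rw [if_pos h, if_neg (hC.not_and g h), add_zero]
      · have h' : g ∉ C := by
          intro h'
          exact hC.not_and g h' h
        rw [if_neg h', if_pos h, zero_add]
    have hindS : ∀ g ∉ H, (ind {g | g * g ∈ C} g : K) + ind {g | g * g ∈ C} g⁻¹ = 1 := by
      intro g hg
      have hg2 : g * g ∉ H := fun h => hg (hsq g h)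
      have e := hindC (g * g) hg2
      have e1 : (ind {g | g * g ∈ C} g : K) = ind C (g * g) := by
        unfold ind
        exact if_congr (by simp) rfl rfl
      have e2 : (ind {g | g * g ∈ C} g⁻¹ : K) = ind C (g * g)⁻¹ := by
        unfold ind
        exact if_congr (by simp) rfl rfl
      rw [e1, e2]; exact e
    have hwinv : ∀ g, w g⁻¹ = w g := by
      intro g
      by_cases hg : g ∈ H
      · rw [hwH g hg, hwH _ (H.inv_mem hg)]
      · have e3 := hindC g hg
        have e4 := hindS g hg
        simp only [hw]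
        have h2 : (2 : K) = 0 := CharP.cast_eq_zero K 2
        linear_combination e3 + e4 - (ind C g + ind {g | g * g ∈ C} g : K) * h2 + h2
    have hwc : ∀ g h, w (g * h) = w (h * g) := by
      intro g h
      simp only [hw]
      have e1 : (ind {g | g * g ∈ C} (g * h) : K) = ind {g | g * g ∈ C} (h * g) := by
        unfold ind
        refine if_congr ?_ rfl rfl
        simp only [Set.mem_ofPred_eq]
        rw [show g * h * (g * h) = g * (h * g * h) by group, hC.ci, mul_assoc]
      rw [e1, hC.ci.ind g h]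
    have e1 : w = fun g => w g * ind C g + w g⁻¹ * ind C g⁻¹ := by
      funext g
      by_cases hg : g ∈ H
      · rw [hwH g hg, hwH _ (H.inv_mem hg)]; simp
      · rw [hwinv, ← mul_add, hindC g hg, mul_one]
    have hwCc : ∀ g h, w (g * h) * ind C (g * h) = w (h * g) * ind C (h * g) := by
      intro g h
      rw [hwc, hC.ci.ind g h]
    have e2 : trf w X = trf (fun g => w g * ind C g) X + trf (fun g => w g * ind C g) (adj X) := by
      rw [trf_adj, ← trf_add_fun, ← e1]
    have e3 : trf (fun g => w g * ind C g) (adj X) = trf (fun g => w g * ind C g) X := by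
      rw [hXadj, trf_mul_comm (f := fun g => w g * ind C g) hwCc, hPψ, map_add, trf_one]
      rw [hwH 1 H.one_mem]; simp
    have e4 : trf w X = y + z := by
      rw [hw, trf_add_fun]
    rw [e3, CharTwo.add_self_eq_zero, e4] at e2
    exact CharTwo.add_eq_zero.mp e2
  refine ⟨z, ?_⟩
  rw [hmain]
  congr 1
  rw [hTX, ← add_assoc, W2.add_self, hfst, hyz, ← map_add]

end Pool.Agent.Lib.MP8a3537.GA
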