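import Pool.Agent.Lib.MP_8a3537_gt.GA.W2

/-!
# Localized quadratic trace functionals on group rings over matrix rings in characteristic two
-/

namespace Pool.Agent.Lib.MP8a3537.GA

open Matrix MonoidAlgebra W2

set_option linter.unusedSectionVars false

variable {K : Type*} [CommRing K] {E : Type*} [Group E]
variable {κ : Type*} [Fintype κ] [DecidableEq κ]

/-- The involution `∑ A_g g ↦ ∑ A_gᵀ g⁻¹`. -/
noncomputable def adj (X : MonoidAlgebra (Matrix κ κ K) E) : MonoidAlgebra (Matrix κ κ K) E :=
  X.coeff.sum fun g A => MonoidAlgebra.single g⁻¹ Aᵀ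

lemma adj_zero : adj (0 : MonoidAlgebra (Matrix κ κ K) E) = 0 := by
  simp [adj]

lemma adj_add (X Y : MonoidAlgebra (Matrix κ κ K) E) : adj (X + Y) = adj X + adj Y := by
  unfold adj
  rw [MonoidAlgebra.coeff_add, Finsupp.sum_add_index']
  · intro g; simp
  · intro g A B; simp

lemma adj_single (g : E) (A : Matrix κ κ K) :
    adj (MonoidAlgebra.single g A) = MonoidAlgebra.single g⁻¹ Aᵀ := by
  unfold adj
  rw [MonoidAlgebra.coeff_single, Finsupp.sum_single_index]
  simp

lemma adj_one : adj (1 : MonoidAlgebra (Matrix κ κ K) E) = 1 := by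
  rw [MonoidAlgebra.one_def, adj_single]; simp

lemma adj_adj (X : MonoidAlgebra (Matrix κ κ K) E) : adj (adj X) = X := by
  induction X using MonoidAlgebra.induction_linear with
  | zero => simp [adj_zero]
  | add X Y hX hY => rw [adj_add, adj_add, hX, hY]
  | single g A => simp [adj_single]

lemma adj_mul (X Y : MonoidAlgebra (Matrix κ κ K) E) :
    adj (X * Y) = adj Y * adj X := by
  induction X using MonoidAlgebra.induction_linear with
  | zero => simp [adj_zero]
  | add X X' hX hX' => rw [add_mul, adj_add, adj_add, hX, hX', mul_add]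
  | single g A =>
    induction Y using MonoidAlgebra.induction_linear with
    | zero => simp [adj_zero]
    | add Y Y' hY hY' => rw [mul_add, adj_add, adj_add, hY, hY', add_mul]
    | single h B => simp [adj_single, Matrix.transpose_mul]

/-- The trace functional `∑ A_g g ↦ ∑ tr(A_g) f(g)`. -/
noncomputable def trf (f : E → K) : MonoidAlgebra (Matrix κ κ K) E →+ K :=
  MonoidAlgebra.liftNC (Matrix.traceAddMonoidHom κ K) f

lemma trf_single (f : E → K) (g : E) (A : Matrix κ κ K) :
    trf f (MonoidAlgebra.single g A) = A.trace * f g := by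
  simp [trf]

lemma trf_mul_comm {f : E → K} (hf : ∀ g h, f (g * h) = f (h * g))
    (X Y : MonoidAlgebra (Matrix κ κ K) E) : trf f (X * Y) = trf f (Y * X) := by
  induction X using MonoidAlgebra.induction_linear with
  | zero => simp
  | add X X' hX hX' => rw [add_mul, mul_add, map_add, map_add, hX, hX']
  | single g A =>
    induction Y using MonoidAlgebra.induction_linear with
    | zero => simp
    | add Y Y' hY hY' => rw [mul_add, add_mul, map_add, map_add, hY, hY']
    | single h B =>
      rw [MonoidAlgebra.single_mul_single, MonoidAlgebra.single_mul_single, trf_single, trf_single,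
        hf, Matrix.trace_mul_comm]

lemma trf_adj (f : E → K) (X : MonoidAlgebra (Matrix κ κ K) E) :
    trf f (adj X) = trf (fun g => f g⁻¹) X := by
  induction X using MonoidAlgebra.induction_linear with
  | zero => simp [adj_zero]
  | add X X' hX hX' => rw [adj_add, map_add, map_add, hX, hX']
  | single g A => rw [adj_single, trf_single, trf_single, Matrix.trace_transpose]

lemma trf_add_fun (f f' : E → K) (X : MonoidAlgebra (Matrix κ κ K) E) :
    trf (fun g => f g + f' g) X = trf f X + trf f' X := by
  induction X using MonoidAlgebra.induction_linear with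
  | zero => simp
  | add X X' hX hX' => rw [map_add, map_add, map_add, hX, hX']; abel
  | single g A => rw [trf_single, trf_single, trf_single, mul_add]

lemma trf_one (f : E → K) :
    trf f (1 : MonoidAlgebra (Matrix κ κ K) E) = (Fintype.card κ : K) * f 1 := by
  rw [MonoidAlgebra.one_def, trf_single, Matrix.trace_one]

open Classical in
/-- indicator function -/
noncomputable def ind (S : Set E) (g : E) : K := if g ∈ S then 1 else 0

open Classical in
/-- Quadratic trace functionals belonging to the set `S` of group elements. -/
structure QF (S : Set E) (T : MonoidAlgebra (Matrix κ κ K) E → W2 K) : Prop where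
  add : ∀ X Y, T (X + Y) = T X + T Y + V (trf (ind S) (X * Y))
  single : ∀ g A, T (MonoidAlgebra.single g A) = if g * g ∈ S then T2 A else 0

/-- invariance under conjugation -/
def CI (S : Set E) : Prop := ∀ g h : E, g * h ∈ S ↔ h * g ∈ S

lemma CI.ind {S : Set E} (hS : CI S) (g h : E) : (ind S (g * h) : K) = ind S (h * g) := by
  classical
  unfold GA.ind
  exact if_congr (hS g h) rfl rfl

namespace QF

variable {S S' : Set E} {T T' : MonoidAlgebra (Matrix κ κ K) E → W2 K}

lemma zero (h : QF S T) : T 0 = 0 := by
  have := h.single 1 0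
  rw [MonoidAlgebra.single_zero, T2_zero] at this
  rw [this]
  split_ifs <;> rfl

lemma unique (h : QF S T) (h' : QF S T') : T = T' := by
  funext X
  induction X using MonoidAlgebra.induction_linear with
  | zero => rw [h.zero, h'.zero]
  | add X X' hX hX' => rw [h.add, h'.add, hX, hX']
  | single g A => rw [h.single, h'.single]

lemma union (h : QF S T) (h' : QF S' T') (hd : Disjoint S S') :
    QF (S ∪ S') (fun X => T X + T' X) where
  add X Y := by
    have e : (ind (S ∪ S') : E → K) = fun g => ind S g + ind S' g := by
      funext g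
      unfold GA.ind
      by_cases h1 : g ∈ S
      · have h2 : g ∉ S' := Set.disjoint_left.mp hd h1
        simp [h1, h2]
      · by_cases h2 : g ∈ S' <;> simp [h1, h2]
    rw [h.add, h'.add, e, trf_add_fun, map_add]; abel
  single g A := by
    rw [h.single, h'.single]
    by_cases h1 : g * g ∈ S
    · have h2 : g * g ∉ S' := Set.disjoint_left.mp hd h1
      simp [h1, h2]
    · by_cases h2 : g * g ∈ S' <;> simp [h1, h2]

lemma adj (h : QF S T) (hS : CI S) : QF (S⁻¹) (fun X => T (adj X)) where
  add X Y := by
    rw [adj_add, h.add, ← adj_mul, trf_adj]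
    have e : (fun g => (ind S g⁻¹ : K)) = ind S⁻¹ := by
      classical
      funext g
      unfold GA.ind
      refine if_congr ?_ rfl rfl
      rw [Set.mem_inv]
    rw [e, trf_mul_comm (f := ind S⁻¹)]
    intro g k
    classical
    unfold GA.ind
    refine if_congr ?_ rfl rfl
    rw [Set.mem_inv, Set.mem_inv, _root_.mul_inv_rev, _root_.mul_inv_rev]
    exact hS _ _
  single g A := by
    classical
    rw [adj_single, h.single, T2_transpose]
    refine if_congr ?_ rfl rfl
    rw [Set.mem_inv, _root_.mul_inv_rev]

lemma neg [CharP K 2] (X : MonoidAlgebra (Matrix κ κ K) E) : -X = X := by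
  have h2 : X + X = 0 := by
    apply MonoidAlgebra.ext
    ext g i j
    simp [CharTwo.add_self_eq_zero]
  exact neg_eq_of_add_eq_zero_left h2

variable [CharP K 2]

lemma mul_comm (h : QF S T) (hS : CI S) (X Y : MonoidAlgebra (Matrix κ κ K) E) :
    T (X * Y) = T (Y * X) := by
  have hf : ∀ g k : E, (ind S (g * k) : K) = ind S (k * g) := hS.ind
  induction X using MonoidAlgebra.induction_linear with
  | zero => simp
  | add X X' hX hX' =>
    rw [add_mul, mul_add, h.add, h.add, hX, hX']
    congr 2
    rw [show Y * X * (Y * X') = Y * (X * Y * X') by simp only [mul_assoc],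
      ← trf_mul_comm hf (X * Y * X') Y]
    simp only [mul_assoc]
  | single g A =>
    induction Y using MonoidAlgebra.induction_linear with
    | zero => simp
    | add Y Y' hY hY' =>
      rw [add_mul, mul_add, h.add, h.add, hY, hY']
      congr 2
      generalize MonoidAlgebra.single g A = X
      rw [show X * Y * (X * Y') = X * (Y * X * Y') by simp only [mul_assoc],
        trf_mul_comm hf X (Y * X * Y')]
      simp only [mul_assoc]
    | single k B =>
      classical
      rw [MonoidAlgebra.single_mul_single, MonoidAlgebra.single_mul_single, h.single, h.single,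
        T2_mul_comm]
      refine if_congr ?_ rfl rfl
      rw [show g * k * (g * k) = g * (k * g * k) by group, hS, mul_assoc]

/-- the first component -/
lemma fst (h : QF S T) (X : MonoidAlgebra (Matrix κ κ K) E) :
    (T X).fst = trf (ind {g | g * g ∈ S}) X := by
  induction X using MonoidAlgebra.induction_linear with
  | zero => rw [h.zero]; simp
  | add X X' hX hX' => rw [h.add, map_add]; simp [hX, hX']
  | single g A =>
    rw [h.single, trf_single]
    unfold GA.ind
    by_cases h1 : g * g ∈ S <;> simp [h1]

end QF

/-! ### Existence -/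

section Existence

variable [CharP K 2]

lemma trf_mul_eq_sum (f : E → K) (X Y : MonoidAlgebra (Matrix κ κ K) E) (s : Finset E)
    (hX : X.coeff.support ⊆ s) (hY : Y.coeff.support ⊆ s) :
    trf f (X * Y) = ∑ g ∈ s, ∑ h ∈ s, (X.coeff g * Y.coeff h).trace * f (g * h) := by
  rw [MonoidAlgebra.mul_def, Finsupp.sum, map_sum]
  rw [Finset.sum_subset hX]
  · refine Finset.sum_congr rfl (fun g _ => ?_)
    rw [Finsupp.sum, map_sum, Finset.sum_subset hY]
    · refine Finset.sum_congr rfl (fun h _ => ?_)
      rw [trf_single]
    · intro h _ hh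
      rw [Finsupp.notMem_support_iff] at hh
      rw [hh]; simp
  · intro g _ hg
    rw [Finsupp.notMem_support_iff] at hg
    rw [hg]; simp

open Classical in
/-- the localized functional, on a finite set containing the support -/
noncomputable def locF [LinearOrder E] (S : Set E) (s : Finset E) (x : E → Matrix κ κ K) : W2 K :=
  (∑ g ∈ s, if g * g ∈ S then T2 (x g) else 0)
    + V (∑ g ∈ s, ∑ h ∈ s, if g < h then (x g * x h).trace * ind S (g * h) else 0)

lemma locF_subset [LinearOrder E] (S : Set E) {s t : Finset E} (hst : s ⊆ t) (x : E → Matrix κ κ K)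
    (hx : ∀ g ∉ s, x g = 0) : locF S s x = locF S t x := by
  unfold locF
  congr 1
  · refine Finset.sum_subset hst (fun g _ hg => ?_)
    rw [hx g hg, T2_zero]; split_ifs <;> rfl
  · congr 1
    rw [Finset.sum_subset hst]
    · refine Finset.sum_congr rfl (fun g _ => ?_)
      refine Finset.sum_subset hst (fun h _ hh => ?_)
      rw [hx h hh]; simp
    · intro g _ hg
      rw [hx g hg]; simp

lemma locF_add [LinearOrder E] {S : Set E} (hS : CI S) (s : Finset E) (x y : E → Matrix κ κ K) :
    locF S s (fun g => x g + y g) = locF S s x + locF S s y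
      + V (∑ g ∈ s, ∑ h ∈ s, (x g * y h).trace * ind S (g * h)) := by
  classical
  have h0 := sum_pairs s (e := fun g : E => g) (fun _ _ h => h)
    (fun g h => (x g * y h).trace * (ind S (g * h) : K))
  rw [← h0, map_add]
  have h1 : ∀ g ∈ s, (if g * g ∈ S then T2 (x g + y g) else 0)
      = (if g * g ∈ S then T2 (x g) else 0) + (if g * g ∈ S then T2 (y g) else 0)
        + V ((x g * y g).trace * ind S (g * g)) := by
    intro g _
    unfold GA.ind
    split_ifs
    · rw [T2_add, mul_one]
    · simp
  have h2 : (∑ g ∈ s, ∑ h ∈ s, if g < h then ((x g + y g) * (x h + y h)).trace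
        * (ind S (g * h) : K) else 0)
      = (∑ g ∈ s, ∑ h ∈ s, if g < h then (x g * x h).trace * (ind S (g * h) : K) else 0)
        + (∑ g ∈ s, ∑ h ∈ s, if g < h then (y g * y h).trace * (ind S (g * h) : K) else 0)
        + ∑ g ∈ s, ∑ h ∈ s, if g < h then (x g * y h).trace * (ind S (g * h) : K)
            + (x h * y g).trace * (ind S (h * g) : K) else 0 := by
    simp only [← Finset.sum_add_distrib]
    refine Finset.sum_congr rfl (fun g _ => Finset.sum_congr rfl (fun h _ => ?_))
    split_ifs
    · rw [hS.ind h g, Matrix.trace_mul_comm (x h) (y g)]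
      simp only [Matrix.add_mul, Matrix.mul_add, Matrix.trace_add]
      ring
    · simp
  unfold locF
  rw [Finset.sum_congr rfl h1, h2]
  simp only [Finset.sum_add_distrib, map_add, map_sum]
  abel

theorem exists_QF {S : Set E} (hS : CI S) :
    ∃ T : MonoidAlgebra (Matrix κ κ K) E → W2 K, QF S T := by
  classical
  let _ : LinearOrder E := linearOrderOfSTO WellOrderingRel
  refine ⟨fun X => locF S X.coeff.support (fun g => X.coeff g), ?_, ?_⟩
  · intro X Y
    set s := X.coeff.support ∪ Y.coeff.support ∪ (X + Y).coeff.support with hs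
    have hX : X.coeff.support ⊆ s := by
      intro g hg; rw [hs]; simp only [Finset.mem_union]; exact Or.inl (Or.inl hg)
    have hY : Y.coeff.support ⊆ s := by
      intro g hg; rw [hs]; simp only [Finset.mem_union]; exact Or.inl (Or.inr hg)
    have hXY : (X + Y).coeff.support ⊆ s := by
      intro g hg; rw [hs]; simp only [Finset.mem_union]; exact Or.inr hg
    rw [locF_subset S hX _ (fun g hg => Finsupp.notMem_support_iff.mp hg),
      locF_subset S hY _ (fun g hg => Finsupp.notMem_support_iff.mp hg),
      locF_subset S hXY _ (fun g hg => Finsupp.notMem_support_iff.mp hg),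
      trf_mul_eq_sum _ X Y s hX hY, ← locF_add hS]
    rfl
  · intro g A
    have h1 : locF S (MonoidAlgebra.single g A).coeff.support
        (fun h => (MonoidAlgebra.single g A).coeff h)
        = locF S {g} (fun h => (MonoidAlgebra.single g A).coeff h) := by
      refine locF_subset S ?_ _ (fun h hh => Finsupp.notMem_support_iff.mp hh)
      rw [MonoidAlgebra.coeff_single]
      exact Finsupp.support_single_subset
    rw [h1]
    unfold locF
    simp [MonoidAlgebra.coeff_single]

end Existence

end Pool.Agent.Lib.MP8a3537.GA
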