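import Mathlib

/-!
# The first two coefficients of the characteristic polynomial in characteristic two

`W2 K` is the group of pairs `(a, b)` with the group law of the polynomials `1 + a t + b t ^ 2`
modulo `t ^ 3`, and `T2 Y = (trace Y, c2 Y)` for a square matrix `Y`, where `c2` is the sum of the
principal minors of size two.
-/

namespace Pool.Agent.Lib.MP8a3537.GA

open Matrix

set_option linter.unusedSectionVars false

/-- pairs with the group law of `1 + a t + b t ^ 2` modulo `t ^ 3` -/
@[ext] structure W2 (K : Type*) where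
  /-- first component -/
  fst : K
  /-- second component -/
  snd : K

namespace W2

variable {K : Type*} [CommRing K]

instance : Zero (W2 K) := ⟨⟨0, 0⟩⟩
instance : Add (W2 K) := ⟨fun x y => ⟨x.fst + y.fst, x.snd + y.snd + x.fst * y.fst⟩⟩
instance : Neg (W2 K) := ⟨fun x => ⟨-x.fst, -x.snd + x.fst * x.fst⟩⟩

@[simp] lemma zero_fst : (0 : W2 K).fst = 0 := rfl
@[simp] lemma zero_snd : (0 : W2 K).snd = 0 := rfl
@[simp] lemma add_fst (x y : W2 K) : (x + y).fst = x.fst + y.fst := rfl
@[simp] lemma add_snd (x y : W2 K) : (x + y).snd = x.snd + y.snd + x.fst * y.fst := rfl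
@[simp] lemma neg_fst (x : W2 K) : (-x).fst = -x.fst := rfl
@[simp] lemma neg_snd (x : W2 K) : (-x).snd = -x.snd + x.fst * x.fst := rfl

instance : AddCommGroup (W2 K) where
  add_assoc x y z := by ext <;> simp <;> ring
  zero_add x := by ext <;> simp
  add_zero x := by ext <;> simp
  nsmul := nsmulRec
  zsmul := zsmulRec
  neg_add_cancel x := by ext <;> simp
  add_comm x y := by ext <;> simp <;> ring

/-- the inclusion of the second component -/
def V : K →+ W2 K where
  toFun b := ⟨0, b⟩
  map_zero' := rfl
  map_add' a b := by ext <;> simp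

@[simp] lemma V_fst (b : K) : (V b).fst = 0 := rfl
@[simp] lemma V_snd (b : K) : (V b).snd = b := rfl

lemma V_inj {a b : K} (h : V a = V b) : a = b := congrArg W2.snd h

/-- the projection to the first component -/
def fstHom : W2 K →+ K where
  toFun := W2.fst
  map_zero' := rfl
  map_add' _ _ := rfl

@[simp] lemma fstHom_apply (x : W2 K) : fstHom x = x.fst := rfl

lemma add_self [CharP K 2] (x : W2 K) : x + x = V (x.fst * x.fst) := by
  ext
  · simp [CharTwo.add_self_eq_zero]
  · simp [CharTwo.add_self_eq_zero]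

end W2

open W2

/-! ### Sums over pairs -/

lemma sum_pairs {α β K : Type*} [DecidableEq α] [LinearOrder β] [AddCommGroup K] (s : Finset α) {e : α → β}
    (he : Function.Injective e) (u : α → α → K) :
    (∑ i ∈ s, ∑ j ∈ s, if e i < e j then u i j + u j i else 0) + ∑ i ∈ s, u i i
      = ∑ i ∈ s, ∑ j ∈ s, u i j := by
  have h1 : (∑ i ∈ s, ∑ j ∈ s, if e i < e j then u i j + u j i else 0)
      = (∑ i ∈ s, ∑ j ∈ s, if e i < e j then u i j else 0)
        + ∑ i ∈ s, ∑ j ∈ s, if e j < e i then u i j else 0 := by
    rw [Finset.sum_comm (f := fun i j => if e j < e i then u i j else 0), ← Finset.sum_add_distrib]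
    refine Finset.sum_congr rfl (fun i _ => ?_)
    rw [← Finset.sum_add_distrib]
    refine Finset.sum_congr rfl (fun j _ => ?_)
    split_ifs <;> simp
  have h2 : ∑ i ∈ s, u i i = ∑ i ∈ s, ∑ j ∈ s, if i = j then u i j else 0 := by
    refine Finset.sum_congr rfl (fun i hi => ?_)
    rw [Finset.sum_ite_eq, if_pos hi]
  rw [h1, h2, ← Finset.sum_add_distrib, ← Finset.sum_add_distrib]
  refine Finset.sum_congr rfl (fun i _ => ?_)
  rw [← Finset.sum_add_distrib, ← Finset.sum_add_distrib]
  refine Finset.sum_congr rfl (fun j _ => ?_)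
  rcases lt_trichotomy (e i) (e j) with h | h | h
  · have hne : i ≠ j := fun e' => by rw [e'] at h; exact lt_irrefl _ h
    rw [if_pos h, if_neg (not_lt_of_gt h), if_neg hne]; simp
  · have heq : i = j := he h
    subst heq
    simp
  · have hne : i ≠ j := fun e' => by rw [e'] at h; exact lt_irrefl _ h
    rw [if_pos h, if_neg (not_lt_of_gt h), if_neg hne]; simp

/-! ### Matrices -/

variable {K : Type*} [CommRing K]
variable {κ μ : Type*} [Fintype κ] [DecidableEq κ] [Fintype μ] [DecidableEq μ]

/-- a numbering of the index type -/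
noncomputable def ord (κ : Type*) [Fintype κ] (i : κ) : ℕ := (Fintype.equivFin κ i : ℕ)

lemma ord_inj (κ : Type*) [Fintype κ] : Function.Injective (ord κ) := by
  intro i j h
  exact (Fintype.equivFin κ).injective (Fin.ext h)

/-- the sum of the principal minors of size two -/
noncomputable def c2 (Y : Matrix κ κ K) : K :=
  ∑ i, ∑ j, if ord κ i < ord κ j then Y i i * Y j j - Y i j * Y j i else 0

lemma c2_eq {β : Type*} [LinearOrder β] {e : κ → β} (he : Function.Injective e) (Y : Matrix κ κ K) :
    c2 Y = ∑ i, ∑ j, if e i < e j then Y i i * Y j j - Y i j * Y j i else 0 := by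
  have h := sum_pairs Finset.univ (ord_inj κ) (fun i j =>
    if e i < e j then Y i i * Y j j - Y i j * Y j i else 0)
  have h0 : ∑ i, (if e i < e i then Y i i * Y i i - Y i i * Y i i else 0) = 0 :=
    Finset.sum_eq_zero (fun i _ => by simp)
  rw [h0, add_zero] at h
  rw [← h]
  unfold c2
  refine Finset.sum_congr rfl (fun i _ => Finset.sum_congr rfl (fun j _ => ?_))
  by_cases hij : ord κ i < ord κ j
  · rw [if_pos hij, if_pos hij]
    rcases lt_trichotomy (e i) (e j) with h1 | h1 | h1
    · rw [if_pos h1, if_neg (not_lt_of_gt h1), add_zero]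
    · have heq : i = j := he h1
      subst heq
      exact absurd hij (lt_irrefl _)
    · rw [if_pos h1, if_neg (not_lt_of_gt h1), zero_add]; ring
  · rw [if_neg hij, if_neg hij]

lemma c2_add (Y Z : Matrix κ κ K) :
    c2 (Y + Z) = c2 Y + c2 Z + (Y.trace * Z.trace - (Y * Z).trace) := by
  have h := sum_pairs Finset.univ (ord_inj κ) (fun i j => Y i i * Z j j - Y i j * Z j i)
  have h0 : ∑ i, (Y i i * Z i i - Y i i * Z i i) = 0 :=
    Finset.sum_eq_zero (fun i _ => by ring)
  rw [h0, add_zero] at h
  have h1 : Y.trace * Z.trace - (Y * Z).trace = ∑ i, ∑ j, (Y i i * Z j j - Y i j * Z j i) := by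
    simp only [Matrix.trace, Matrix.diag_apply, Finset.sum_mul_sum, Matrix.mul_apply,
      Finset.sum_sub_distrib]
  rw [h1, ← h]
  unfold c2
  rw [← Finset.sum_add_distrib, ← Finset.sum_add_distrib]
  refine Finset.sum_congr rfl (fun i _ => ?_)
  rw [← Finset.sum_add_distrib, ← Finset.sum_add_distrib]
  refine Finset.sum_congr rfl (fun j _ => ?_)
  by_cases hij : ord κ i < ord κ j
  · simp only [if_pos hij, Matrix.add_apply]; ring
  · simp only [if_neg hij]; ring

lemma c2_single (i j : κ) (a : K) : c2 (Matrix.single i j a) = 0 := by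
  unfold c2
  refine Finset.sum_eq_zero (fun k _ => Finset.sum_eq_zero (fun l _ => ?_))
  by_cases hkl : ord κ k < ord κ l
  · have hne : k ≠ l := fun e => by rw [e] at hkl; exact lt_irrefl _ hkl
    rw [if_pos hkl]
    simp only [Matrix.single_apply]
    have h1 : (if i = k ∧ j = k then a else 0) * (if i = l ∧ j = l then a else 0) = 0 := by
      by_cases h : i = k
      · rw [if_neg (c := i = l ∧ j = l) (fun h' => hne (h.symm.trans h'.1)), mul_zero]
      · rw [if_neg (c := i = k ∧ j = k) (fun h' => h h'.1), zero_mul]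
    have h2 : (if i = k ∧ j = l then a else 0) * (if i = l ∧ j = k then a else 0) = 0 := by
      by_cases h : i = k
      · rw [if_neg (c := i = l ∧ j = k) (fun h' => hne (h.symm.trans h'.1)), mul_zero]
      · rw [if_neg (c := i = k ∧ j = l) (fun h' => h h'.1), zero_mul]
    rw [h1, h2, sub_zero]
  · rw [if_neg hkl]

lemma c2_zero : c2 (0 : Matrix κ κ K) = 0 := by simp [c2]

lemma c2_transpose (Y : Matrix κ κ K) : c2 Yᵀ = c2 Y := by
  unfold c2
  refine Finset.sum_congr rfl (fun i _ => Finset.sum_congr rfl (fun j _ => ?_))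
  simp only [Matrix.transpose_apply]
  split_ifs
  · ring
  · rfl

/-- trace and sum of the principal minors of size two -/
noncomputable def T2 (Y : Matrix κ κ K) : W2 K := ⟨Y.trace, c2 Y⟩

@[simp] lemma T2_fst (Y : Matrix κ κ K) : (T2 Y).fst = Y.trace := rfl
@[simp] lemma T2_snd (Y : Matrix κ κ K) : (T2 Y).snd = c2 Y := rfl

lemma T2_zero : T2 (0 : Matrix κ κ K) = 0 := by ext <;> simp [c2_zero]

lemma T2_transpose (Y : Matrix κ κ K) : T2 Yᵀ = T2 Y := by
  ext <;> simp [c2_transpose, Matrix.trace_transpose]

section Char2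

variable [CharP K 2]

lemma T2_add (Y Z : Matrix κ κ K) : T2 (Y + Z) = T2 Y + T2 Z + V ((Y * Z).trace) := by
  ext
  · simp
  · simp only [T2_snd, add_snd, T2_fst, V_snd, V_fst, c2_add, add_fst]
    rw [CharTwo.sub_eq_add]; ring

lemma T2_single (i j : κ) (a : K) : T2 (Matrix.single i j a) = ⟨if i = j then a else 0, 0⟩ := by
  ext
  · rw [T2_fst]
    by_cases h : i = j
    · subst h; simp
    · rw [if_neg h, Matrix.trace_single_eq_of_ne _ _ _ h]
  · rw [T2_snd, c2_single]

lemma T2_mul_comm (Y : Matrix κ μ K) (Z : Matrix μ κ K) : T2 (Y * Z) = T2 (Z * Y) := by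
  induction Y using Matrix.induction_on' with
  | h_zero => simp [T2_zero]
  | h_add Y Y' hY hY' =>
    rw [Matrix.add_mul, Matrix.mul_add, T2_add, T2_add, hY, hY']
    congr 2
    rw [show Z * Y * (Z * Y') = Z * (Y * Z * Y') by simp only [Matrix.mul_assoc],
      Matrix.trace_mul_comm Z (Y * Z * Y')]
    simp only [Matrix.mul_assoc]
  | h_std_basis i j a =>
    induction Z using Matrix.induction_on' with
    | h_zero => simp [T2_zero]
    | h_add Z Z' hZ hZ' =>
      rw [Matrix.add_mul, Matrix.mul_add, T2_add, T2_add, hZ, hZ']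
      congr 2
      generalize Matrix.single i j a = Y
      rw [show Y * Z * (Y * Z') = Y * (Z * Y * Z') by simp only [Matrix.mul_assoc],
        Matrix.trace_mul_comm Y (Z * Y * Z')]
      simp only [Matrix.mul_assoc]
    | h_std_basis k l b =>
      by_cases h1 : j = k
      · subst h1
        rw [Matrix.single_mul_single_same]
        by_cases h2 : l = i
        · subst h2
          rw [Matrix.single_mul_single_same, T2_single, T2_single]
          simp [mul_comm]
        · rw [Matrix.single_mul_single_of_ne _ _ _ _ h2, T2_single, if_neg (Ne.symm h2), T2_zero]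
          rfl
      · rw [Matrix.single_mul_single_of_ne _ _ _ _ h1, T2_zero]
        by_cases h2 : l = i
        · subst h2
          rw [Matrix.single_mul_single_same, T2_single, if_neg (Ne.symm h1)]
          rfl
        · rw [Matrix.single_mul_single_of_ne _ _ _ _ h2, T2_zero]

end Char2

end Pool.Agent.Lib.MP8a3537.GA
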