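import Pool.Agent.Lib.MP_8a3537_gt.GA.Defs
import Pool.Agent.Lib.MP_8a3537_gt.GA.Key
import Pool.Agent.Lib.MP_8a3537_gt.GA.Arf

/-!
# From forms over `R[E]` to forms over `M(K)[E]`
-/

namespace Pool.Agent.Lib.MP8a3537.GA

open Matrix MonoidAlgebra W2

open scoped Kronecker

set_option linter.unusedSectionVars false

variable {R E K : Type*} [Ring R] [StarRing R] [Group E] [CommRing K]
variable {ι δ : Type*} [Fintype ι] [DecidableEq ι] [Fintype δ] [DecidableEq δ]

lemma conj_zero : conj (0 : MonoidAlgebra R E) = 0 := by simp [conj]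

lemma conj_add (x y : MonoidAlgebra R E) : conj (x + y) = conj x + conj y := by
  unfold conj
  rw [MonoidAlgebra.coeff_add, Finsupp.sum_add_index']
  · intro g; simp
  · intro g r s; simp

lemma conj_single (g : E) (r : R) :
    conj (MonoidAlgebra.single g r) = MonoidAlgebra.single g⁻¹ (star r) := by
  unfold conj
  rw [MonoidAlgebra.coeff_single, Finsupp.sum_single_index]
  simp

lemma dual_add (ψ φ : Matrix ι ι (MonoidAlgebra R E)) : dual (ψ + φ) = dual ψ + dual φ := by
  ext1 i j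
  simp [dual, conj_add]

lemma dual_zero : dual (0 : Matrix ι ι (MonoidAlgebra R E)) = 0 := by
  ext1 i j
  simp [dual, conj_zero]

lemma dual_single (i j : ι) (x : MonoidAlgebra R E) :
    dual (Matrix.single i j x) = Matrix.single j i (conj x) := by
  ext1 k l
  simp only [dual, Matrix.transpose_apply, Matrix.map_apply, Matrix.single_apply]
  by_cases h : i = l ∧ j = k
  · rw [if_pos h, if_pos ⟨h.2, h.1⟩]
  · rw [if_neg h, if_neg (fun h' => h ⟨h'.2, h'.1⟩), conj_zero]

/-- Induction for matrices over a group ring. -/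
theorem indM {p : Matrix ι ι (MonoidAlgebra R E) → Prop} (h0 : p 0)
    (hadd : ∀ x y, p x → p y → p (x + y))
    (hs : ∀ i j g r, p (Matrix.single i j (MonoidAlgebra.single g r)))
    (x : Matrix ι ι (MonoidAlgebra R E)) : p x := by
  induction x using Matrix.induction_on' with
  | h_zero => exact h0
  | h_add x y hx hy => exact hadd _ _ hx hy
  | h_std_basis i j x =>
    induction x using MonoidAlgebra.induction_linear with
    | zero => rw [Matrix.single_zero]; exact h0
    | add x y hx hy => rw [Matrix.single_add]; exact hadd _ _ hx hy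
    | single g r => exact hs i j g r

variable (Φ : MonoidAlgebra R E →+* Matrix δ δ K)

/-- The ring homomorphism `M_n(R[E]) → M_{nd}(K)[E]`, `r g ↦ Φ(r g) g`. -/
noncomputable def xi (ψ : Matrix ι ι (MonoidAlgebra R E)) :
    MonoidAlgebra (Matrix (ι × δ) (ι × δ) K) E :=
  ∑ i, ∑ j, (ψ i j).coeff.sum fun g r =>
    MonoidAlgebra.single g (Matrix.single i j (1 : K) ⊗ₖ Φ (MonoidAlgebra.single g r))

lemma xi_zero : xi Φ (0 : Matrix ι ι (MonoidAlgebra R E)) = 0 := by
  simp [xi]

lemma xi_add (ψ φ : Matrix ι ι (MonoidAlgebra R E)) : xi Φ (ψ + φ) = xi Φ ψ + xi Φ φ := by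
  unfold xi
  rw [← Finset.sum_add_distrib]
  refine Finset.sum_congr rfl (fun i _ => ?_)
  rw [← Finset.sum_add_distrib]
  refine Finset.sum_congr rfl (fun j _ => ?_)
  rw [Matrix.add_apply, MonoidAlgebra.coeff_add, Finsupp.sum_add_index']
  · intro g
    rw [MonoidAlgebra.single_zero, map_zero, Matrix.kronecker_zero, MonoidAlgebra.single_zero]
  · intro g r s
    rw [MonoidAlgebra.single_add, map_add, Matrix.kronecker_add, MonoidAlgebra.single_add]

lemma xi_single (i j : ι) (g : E) (r : R) :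
    xi Φ (Matrix.single i j (MonoidAlgebra.single g r))
      = MonoidAlgebra.single g (Matrix.single i j (1 : K) ⊗ₖ Φ (MonoidAlgebra.single g r)) := by
  unfold xi
  rw [Finset.sum_eq_single i, Finset.sum_eq_single j]
  · rw [Matrix.single_apply_same, MonoidAlgebra.coeff_single, Finsupp.sum_single_index]
    rw [MonoidAlgebra.single_zero, map_zero, Matrix.kronecker_zero, MonoidAlgebra.single_zero]
  · intro k _ hk
    rw [Matrix.single_apply_of_ne _ _ _ _ _ (fun h => hk h.2.symm)]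
    simp
  · intro h; exact (h (Finset.mem_univ _)).elim
  · intro k _ hk
    refine Finset.sum_eq_zero (fun l _ => ?_)
    rw [Matrix.single_apply_of_ne _ _ _ _ _ (fun h => hk h.1.symm)]
    simp
  · intro h; exact (h (Finset.mem_univ _)).elim

lemma xi_mul (ψ φ : Matrix ι ι (MonoidAlgebra R E)) : xi Φ (ψ * φ) = xi Φ ψ * xi Φ φ := by
  induction ψ using indM with
  | h0 => simp [xi_zero]
  | hadd x y hx hy => rw [add_mul, xi_add, xi_add, hx, hy, add_mul]
  | hs i j g r =>
    induction φ using indM with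
    | h0 => simp [xi_zero]
    | hadd x y hx hy => rw [mul_add, xi_add, xi_add, hx, hy, mul_add]
    | hs k l h s =>
      rw [xi_single, xi_single, MonoidAlgebra.single_mul_single, ← Matrix.mul_kronecker_mul,
        ← map_mul, MonoidAlgebra.single_mul_single]
      by_cases hjk : j = k
      · subst hjk
        rw [Matrix.single_mul_single_same, Matrix.single_mul_single_same,
          MonoidAlgebra.single_mul_single, xi_single, one_mul]
      · rw [Matrix.single_mul_single_of_ne _ _ _ _ hjk, Matrix.single_mul_single_of_ne _ _ _ _ hjk,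
          xi_zero, Matrix.zero_kronecker, MonoidAlgebra.single_zero]

lemma sum_single_one : ∑ i : ι, Matrix.single i i (1 : K) = 1 := by
  ext k l
  rw [Matrix.sum_apply]
  simp only [Matrix.single_apply, Matrix.one_apply]
  by_cases h : k = l
  · subst h
    simp
  · rw [if_neg h]
    refine Finset.sum_eq_zero (fun i _ => ?_)
    rw [if_neg (fun h' => h (h'.1.symm.trans h'.2))]

lemma xi_one : xi Φ (1 : Matrix ι ι (MonoidAlgebra R E)) = 1 := by
  unfold xi
  have h1 : ∀ i : ι, (∑ j, ((1 : Matrix ι ι (MonoidAlgebra R E)) i j).coeff.sum fun g r =>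
      MonoidAlgebra.single g (Matrix.single i j (1 : K) ⊗ₖ Φ (MonoidAlgebra.single g r)))
      = MonoidAlgebra.single 1 (Matrix.single i i (1 : K) ⊗ₖ (1 : Matrix δ δ K)) := by
    intro i
    rw [Finset.sum_eq_single i]
    · rw [Matrix.one_apply_eq, MonoidAlgebra.one_def, MonoidAlgebra.coeff_single,
        Finsupp.sum_single_index, ← MonoidAlgebra.one_def, map_one]
      rw [MonoidAlgebra.single_zero, map_zero, Matrix.kronecker_zero, MonoidAlgebra.single_zero]
    · intro j _ hj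
      rw [Matrix.one_apply_ne (Ne.symm hj)]
      simp
    · intro h; exact (h (Finset.mem_univ _)).elim
  rw [Finset.sum_congr rfl (fun i _ => h1 i)]
  have h2 : ∀ s : Finset ι, ∑ i ∈ s, (MonoidAlgebra.single (1 : E)
      (Matrix.single i i (1 : K) ⊗ₖ (1 : Matrix δ δ K)))
      = MonoidAlgebra.single 1 ((∑ i ∈ s, Matrix.single i i (1 : K)) ⊗ₖ (1 : Matrix δ δ K)) := by
    intro s
    induction s using Finset.induction_on with
    | empty => simp
    | insert a s ha ih =>
      rw [Finset.sum_insert ha, Finset.sum_insert ha, ih, Matrix.add_kronecker,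
        MonoidAlgebra.single_add]
  rw [h2, sum_single_one, Matrix.one_kronecker_one, MonoidAlgebra.one_def]

/-- the block matrix `Φ(ψ)` -/
noncomputable def blk (ψ : Matrix ι ι (MonoidAlgebra R E)) : Matrix (ι × δ) (ι × δ) K :=
  Matrix.of fun p q => Φ (ψ p.1 q.1) p.2 q.2

lemma aug_xi (ψ : Matrix ι ι (MonoidAlgebra R E)) : aug (xi Φ ψ) = blk Φ ψ := by
  induction ψ using indM with
  | h0 => rw [xi_zero, map_zero]; ext p q; simp [blk]
  | hadd x y hx hy =>
    rw [xi_add, map_add, hx, hy]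
    ext p q
    simp [blk]
  | hs i j g r =>
    rw [xi_single, aug_single]
    ext p q
    simp only [blk, Matrix.kroneckerMap_apply, Matrix.of_apply, Matrix.single_apply]
    by_cases h : i = p.1 ∧ j = q.1
    · rw [if_pos h, if_pos h, one_mul]
    · rw [if_neg h, if_neg h, zero_mul, map_zero]; rfl

lemma form_eq {d : ℕ} (Φ : Rep R E K d) (ψ : Matrix ι ι (MonoidAlgebra R E)) :
    Φ.form ψ = ((1 : Matrix ι ι K) ⊗ₖ Φ.b) * blk Φ.hom ψ := by
  ext p q
  rw [Rep.form, Matrix.of_apply, Matrix.mul_apply, Matrix.mul_apply, Fintype.sum_prod_type,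
    Finset.sum_eq_single p.1]
  · refine Finset.sum_congr rfl (fun k _ => ?_)
    simp [blk, Matrix.kroneckerMap_apply]
  · intro i _ hi
    refine Finset.sum_eq_zero (fun k _ => ?_)
    rw [Matrix.kroneckerMap_apply, Matrix.one_apply_ne (Ne.symm hi), zero_mul, zero_mul]
  · intro h; exact (h (Finset.mem_univ _)).elim

/-- `b ψ` over `M(K)[E]` -/
noncomputable def bxi {d : ℕ} (Φ : Rep R E K d) (ψ : Matrix ι ι (MonoidAlgebra R E)) :
    MonoidAlgebra (Matrix (ι × Fin d) (ι × Fin d) K) E :=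
  MonoidAlgebra.single 1 ((1 : Matrix ι ι K) ⊗ₖ Φ.b) * xi Φ.hom ψ

lemma aug_bxi {d : ℕ} (Φ : Rep R E K d) (ψ : Matrix ι ι (MonoidAlgebra R E)) :
    aug (bxi Φ ψ) = Φ.form ψ := by
  rw [bxi, map_mul, aug_single, aug_xi, form_eq]

lemma adj_bxi {d : ℕ} (Φ : Rep R E K d) (ψ : Matrix ι ι (MonoidAlgebra R E)) :
    adj (bxi Φ ψ) = bxi Φ (dual ψ) := by
  unfold bxi
  induction ψ using indM with
  | h0 => rw [dual_zero, xi_zero, mul_zero, adj_zero]
  | hadd x y hx hy => rw [dual_add, xi_add, xi_add, mul_add, adj_add, hx, hy, mul_add]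
  | hs i j g r =>
    rw [dual_single, conj_single, xi_single, xi_single, MonoidAlgebra.single_mul_single,
      MonoidAlgebra.single_mul_single, adj_single, ← Matrix.mul_kronecker_mul,
      ← Matrix.mul_kronecker_mul, Matrix.one_mul, Matrix.one_mul, one_mul, one_mul,
      ← Matrix.kroneckerMap_transpose, Matrix.transpose_mul, Φ.symm, Φ.star_hom,
      Matrix.transpose_single]

lemma bxi_add {d : ℕ} (Φ : Rep R E K d) (ψ φ : Matrix ι ι (MonoidAlgebra R E)) :
    bxi Φ (ψ + φ) = bxi Φ ψ + bxi Φ φ := by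
  rw [bxi, xi_add, mul_add]; rfl

section Char2

variable [CharP K 2]

lemma T2_kron (i j : ι) (A : Matrix δ δ K) :
    T2 (Matrix.single i j (1 : K) ⊗ₖ A) = if i = j then T2 A else 0 := by
  let U : ι → Matrix (ι × δ) δ K := fun i => Matrix.of fun p k => if p.1 = i ∧ p.2 = k then 1 else 0
  have h1 : Matrix.single i j (1 : K) ⊗ₖ A = U i * (A * (U j)ᵀ) := by
    ext p q
    rw [Matrix.kroneckerMap_apply, Matrix.mul_apply, Finset.sum_eq_single p.2]
    · rw [Matrix.mul_apply, Finset.sum_eq_single q.2]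
      · simp only [U, Matrix.single_apply, Matrix.of_apply, Matrix.transpose_apply, and_true]
        by_cases h : i = p.1
        · by_cases h' : j = q.1
          · simp [h, h']
          · simp [h', Ne.symm h']
        · simp [h, Ne.symm h]
      · intro l _ hl
        simp only [U, Matrix.transpose_apply, Matrix.of_apply]
        rw [if_neg (fun h => hl h.2.symm), mul_zero]
      · intro h; exact (h (Finset.mem_univ _)).elim
    · intro k _ hk
      simp only [U, Matrix.of_apply]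
      rw [if_neg (fun h => hk h.2.symm), zero_mul]
    · intro h; exact (h (Finset.mem_univ _)).elim
  have h2 : (U j)ᵀ * U i = if i = j then 1 else 0 := by
    ext k l
    rw [Matrix.mul_apply, Finset.sum_eq_single (i, l)]
    · simp only [U, Matrix.transpose_apply, Matrix.of_apply]
      by_cases h : i = j
      · subst h
        simp only [true_and, if_true, and_self, mul_one, Matrix.one_apply]
        exact if_congr eq_comm rfl rfl
      · simp [h]
    · intro p _ hp
      simp only [U, Matrix.transpose_apply, Matrix.of_apply]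
      rw [if_neg (c := p.1 = i ∧ p.2 = l) (fun h => hp (Prod.ext h.1 h.2)), mul_zero]
    · intro h; exact (h (Finset.mem_univ _)).elim
  rw [h1, T2_mul_comm, Matrix.mul_assoc, h2]
  by_cases h : i = j
  · rw [if_pos h, if_pos h, Matrix.mul_one]
  · rw [if_neg h, if_neg h, Matrix.mul_zero, T2_zero]

omit [CharP K 2] in
lemma trace_kron_single (i j : ι) (A : Matrix δ δ K) :
    (Matrix.single i j (1 : K) ⊗ₖ A).trace = if i = j then A.trace else 0 := by
  rw [Matrix.trace_kronecker]
  by_cases h : i = j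
  · subst h; simp
  · rw [Matrix.trace_single_eq_of_ne _ _ _ h, if_neg h, zero_mul]

variable {d₁ d₂ : ℕ}

theorem TH_congr (H : Subgroup E) (hsq : ∀ g, g * g ∈ H → g ∈ H)
    (Φ₁ : MonoidAlgebra R E →+* Matrix (Fin d₁) (Fin d₁) K)
    (Φ₂ : MonoidAlgebra R E →+* Matrix (Fin d₂) (Fin d₂) K)
    (hΦ : ∀ g ∈ H, ∀ r : R, T2 (Φ₁ (MonoidAlgebra.single g r)) = T2 (Φ₂ (MonoidAlgebra.single g r)))
    {T₁ : MonoidAlgebra (Matrix (ι × Fin d₁) (ι × Fin d₁) K) E → W2 K} (h₁ : QF (H : Set E) T₁)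
    {T₂ : MonoidAlgebra (Matrix (ι × Fin d₂) (ι × Fin d₂) K) E → W2 K} (h₂ : QF (H : Set E) T₂)
    (x : Matrix ι ι (MonoidAlgebra R E)) : T₁ (xi Φ₁ x) = T₂ (xi Φ₂ x) := by
  classical
  have htr : ∀ z : Matrix ι ι (MonoidAlgebra R E),
      trf (ind (H : Set E)) (xi Φ₁ z) = trf (ind (H : Set E)) (xi Φ₂ z) := by
    intro z
    induction z using indM with
    | h0 => rw [xi_zero, xi_zero, map_zero, map_zero]
    | hadd x y hx hy => rw [xi_add, xi_add, map_add, map_add, hx, hy]
    | hs i j g r =>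
      rw [xi_single, xi_single, trf_single, trf_single, trace_kron_single, trace_kron_single]
      unfold ind
      by_cases hg : g ∈ H
      · have e := congrArg W2.fst (hΦ g hg r)
        rw [T2_fst, T2_fst] at e
        rw [e]
      · rw [if_neg (c := g ∈ (H : Set E)) hg, mul_zero, mul_zero]
  induction x using indM with
  | h0 => rw [xi_zero, xi_zero, h₁.zero, h₂.zero]
  | hadd x y hx hy =>
    rw [xi_add, xi_add, h₁.add, h₂.add, hx, hy, ← xi_mul, ← xi_mul, htr]
  | hs i j g r =>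
    rw [xi_single, xi_single, h₁.single, h₂.single, T2_kron, T2_kron]
    by_cases hg : g * g ∈ H
    · rw [hΦ g (hsq g hg) r]
    · rw [if_neg (c := g * g ∈ (H : Set E)) hg, if_neg (c := g * g ∈ (H : Set E)) hg]

/-- the value of the first two coefficients at `(ψ + ψ^*)⁻¹ ψ` -/
theorem value (H : Subgroup E) [H.Normal] (hE : ∀ g ∉ H, ¬ IsConj g g⁻¹)
    (hsq : ∀ g, g * g ∈ H → g ∈ H) {d : ℕ} (Φ : Rep R E K d)
    {T : MonoidAlgebra (Matrix (ι × Fin d) (ι × Fin d) K) E → W2 K} (hT : QF (H : Set E) T)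
    (ε : ℤ) (hε : ε = 1 ∨ ε = -1) (ψ μ : Matrix ι ι (MonoidAlgebra R E))
    (h1 : μ * (ψ + ε • dual ψ) = 1) (h2 : (ψ + ε • dual ψ) * μ = 1)
    {m : ℕ} (P : Matrix (ι × Fin d) (Fin m ⊕ Fin m) K)
    (hcard : Fintype.card (Fin m ⊕ Fin m) = Fintype.card (ι × Fin d))
    (hP : Pᵀ * (Φ.form ψ + (Φ.form ψ)ᵀ) * P = hyp (Fin m) K) :
    ∃ z : K, T (xi Φ.hom (μ * ψ)) = T2 (1 : Matrix (Fin m) (Fin m) K)
      + V ((∑ i, (Pᵀ * Φ.form ψ * P) (Sum.inl i) (Sum.inl i)
          * (Pᵀ * Φ.form ψ * P) (Sum.inr i) (Sum.inr i)) + (z * z + z)) := by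
  obtain ⟨c, hc1, hc2⟩ := isUnit_iff_exists.mp Φ.unit
  have hneg : ∀ Y : MonoidAlgebra (Matrix (ι × Fin d) (ι × Fin d) K) E, -Y = Y := QF.neg
  have hxneg : ∀ y : Matrix ι ι (MonoidAlgebra R E), xi Φ.hom (-y) = xi Φ.hom y := by
    intro y
    have h : xi Φ.hom (-y) + xi Φ.hom y = 0 := by rw [← xi_add, neg_add_cancel, xi_zero]
    rw [eq_neg_of_add_eq_zero_left h, hneg]
  have hxε : xi Φ.hom (ε • dual ψ) = xi Φ.hom (dual ψ) := by
    rcases hε with h | h
    · rw [h, one_smul]
    · rw [h, neg_smul, one_smul, hxneg]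
  set ψ' := bxi Φ ψ with hψ'
  have hA : ψ' + adj ψ' = MonoidAlgebra.single 1 ((1 : Matrix ι ι K) ⊗ₖ Φ.b)
      * xi Φ.hom (ψ + ε • dual ψ) := by
    rw [hψ', adj_bxi, xi_add, hxε, bxi, bxi, mul_add]
  set P' : MonoidAlgebra (Matrix (ι × Fin d) (ι × Fin d) K) E :=
    xi Φ.hom μ * MonoidAlgebra.single 1 ((1 : Matrix ι ι K) ⊗ₖ c) with hP'
  have hcb : (MonoidAlgebra.single (1 : E) ((1 : Matrix ι ι K) ⊗ₖ c))
      * MonoidAlgebra.single 1 ((1 : Matrix ι ι K) ⊗ₖ Φ.b) = 1 := by
    rw [MonoidAlgebra.single_mul_single, ← Matrix.mul_kronecker_mul, hc2, Matrix.one_mul,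
      Matrix.one_kronecker_one, one_mul, MonoidAlgebra.one_def]
  have hbc : (MonoidAlgebra.single (1 : E) ((1 : Matrix ι ι K) ⊗ₖ Φ.b))
      * MonoidAlgebra.single 1 ((1 : Matrix ι ι K) ⊗ₖ c) = 1 := by
    rw [MonoidAlgebra.single_mul_single, ← Matrix.mul_kronecker_mul, hc1, Matrix.one_mul,
      Matrix.one_kronecker_one, one_mul, MonoidAlgebra.one_def]
  have e1 : P' * (ψ' + adj ψ') = 1 := by
    rw [hA, hP', mul_assoc, ← mul_assoc (MonoidAlgebra.single 1 _) (MonoidAlgebra.single 1 _), hcb,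
      one_mul, ← xi_mul, h1, xi_one]
  have e2 : (ψ' + adj ψ') * P' = 1 := by
    rw [hA, hP', mul_assoc, ← mul_assoc (xi Φ.hom _) (xi Φ.hom _), ← xi_mul, h2, xi_one, one_mul,
      hbc]
  have e3 : P' * ψ' = xi Φ.hom (μ * ψ) := by
    rw [hψ', bxi, hP', mul_assoc, ← mul_assoc (MonoidAlgebra.single 1 _) (MonoidAlgebra.single 1 _),
      hcb, one_mul, ← xi_mul]
  obtain ⟨w, hw⟩ := key H hE hsq hT e1 e2
  have hM : aug ψ' = Φ.form ψ := aug_bxi Φ ψ
  have hL : aug P' * (Φ.form ψ + (Φ.form ψ)ᵀ) = 1 := by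
    rw [← hM, ← aug_adj, ← map_add, ← map_mul, e1, map_one]
  obtain ⟨z, hz⟩ := arf_formula (Φ.form ψ) (aug P') hL P hcard hP
  refine ⟨z + w, ?_⟩
  have h3 : T (P' * ψ') = T2 (aug (P' * ψ')) + V (w * w + w) := by
    rw [hw, add_assoc, ← map_add, CharTwo.add_self_eq_zero, map_zero, add_zero]
  rw [← e3, h3, map_mul, hM, hz, add_assoc, ← map_add]
  congr 2
  have h2 : (2 : K) = 0 := CharP.cast_eq_zero K 2
  linear_combination -(z * w) * h2

end Char2

end Pool.Agent.Lib.MP8a3537.GA
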